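import Mathlib
import Pool.Agent.V11175.Sh11

/-!
# The monotone triangle polynomial at a prefix-repeated bottom row

We prove `α(n + i; 1, ..., i, 1, ..., n) = A_n` for `0 ≤ i ≤ n`, where `A_n` is the number of monotone triangles
with bottom row `(1, ..., n)`.

The proof takes place in the shuffle algebra (with kernel `1 - x + x y`) generated by letters `t_a`, `a ∈ ℕ`:
a word `t_{k_1} ... t_{k_n}` is an alternating polynomial and `α(n; k_1, ..., k_n)` is the value at `(1, ..., 1)`
of its quotient by the Vandermonde product.  Words of length `2 n` in `n` consecutive letters span a space of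
dimension one, and comparing the values at `0` and `∞` of two of the variables gives
`(t_1 ... t_n)² = D((t_1 ... t_{n-1})²) t_n²`, where `D` multiplies by `∏ (x_j - 1)`.  Putting one variable equal
to `1` this gives the reduction from `i` to `i - 1`.
-/

set_option autoImplicit false

namespace Pool.Agent.Results.MP_eb4e27_co.PrefixRepeated

open Finset Pool.Agent.V11175.Sh Pool.Agent.V11175.Sh.A Pool.Agent.V11175.MT

/-- the sequence `(1, ..., i, 1, 2, 3, ...)` (index `j` starts at `0`) -/
def pseq (i j : ℕ) : ℕ := if j < i then j + 1 else j - i + 1

lemma list_p (n i : ℕ) : List.ofFn (fun j : Fin (n + i) => pseq i j) = List.range' 1 i ++ List.range' 1 n := by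
  apply List.ext_getElem
  · simp; ring
  · intro j h1 h2
    rw [List.getElem_ofFn]
    simp only [pseq]
    by_cases hj : j < i
    · rw [if_pos hj, List.getElem_append_left (by simpa using hj), List.getElem_range']
      omega
    · rw [if_neg hj, List.getElem_append_right (by simpa using hj), List.getElem_range']
      simp; omega

/-- **The monotone triangle polynomial at a prefix-repeated bottom row.**  First: the monotone triangle
polynomials exist and are unique.  Second: for all `n` and all `0 ≤ i ≤ n`,
`α(n + i; 1, ..., i, 1, ..., n)` is the number of monotone triangles with bottom row `(1, ..., n)`. -/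
theorem result :
    (∀ n : ℕ, ∃! P : MvPolynomial (Fin n) ℚ, IsAlpha n P) ∧
    ∀ n i : ℕ, i ≤ n → ∀ P : MvPolynomial (Fin (n + i)) ℚ, IsAlpha (n + i) P →
      MvPolynomial.eval (fun j : Fin (n + i) => (pseq i j : ℚ)) P =
        numMT n (fun j : Fin n => ((j : ℕ) : ℤ) + 1) := by
  refine ⟨existsUnique, ?_⟩
  intro n i hin P hP
  rw [eval_eq hP (fun j : Fin (n + i) => pseq i j), alpha_of_list _ _ (list_p n i), wordL_append,
    wordL_range', wordL_range', al_congr (show n + i = i + n by ring), al_run_run 1 i n hin]
  have h := alpha_eq_num (fun j : Fin n => (j : ℕ) + 1) (by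
    intro a b hab
    rw [Fin.lt_def] at hab
    simp only
    omega)
  have hl : List.ofFn (fun j : Fin n => (j : ℕ) + 1) = List.range' 1 n := by
    apply List.ext_getElem
    · simp
    · intro j h1 h2
      rw [List.getElem_ofFn, List.getElem_range']
      simp; omega
  rw [alpha_of_list _ _ hl, wordL_range'] at h
  rw [h]
  push_cast
  rfl

end Pool.Agent.Results.MP_eb4e27_co.PrefixRepeated
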